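import Pool.Agent.V5helper19.ER.Stm2

set_option autoImplicit false
open Finset

namespace Pool.Agent.V5helper3.ER

open V5helper19.ER

/-- Bonferroni's inequality -/
theorem bonf {α β : Type} [DecidableEq α] [DecidableEq β] (A : β → Finset α) (M : ℝ) (hM0 : 0 ≤ M)
    (hM : ∀ e e', e ≠ e' → ((A e ∩ A e').card : ℝ) ≤ M) (L : Finset β) :
    ∑ e ∈ L, ((A e).card : ℝ) ≤ (L.biUnion A).card + (L.card : ℝ) ^ 2 * M := by
  induction L using Finset.induction_on with
  | empty => simp
  | insert a L ha ih =>
    rw [Finset.sum_insert ha, Finset.biUnion_insert, Finset.card_insert_of_notMem ha]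
    have h1 := Finset.card_union_add_card_inter (A a) (L.biUnion A)
    have h2 : ((A a ∩ L.biUnion A).card : ℝ) ≤ L.card * M := by
      rw [Finset.inter_biUnion]
      calc (((L.biUnion fun e => A a ∩ A e).card : ℕ) : ℝ) ≤ ((∑ e ∈ L, (A a ∩ A e).card : ℕ) : ℝ) := by
            exact_mod_cast Finset.card_biUnion_le
        _ = ∑ e ∈ L, ((A a ∩ A e).card : ℝ) := by push_cast; rfl
        _ ≤ ∑ _e ∈ L, M := by
            refine Finset.sum_le_sum fun e he => hM a e ?_
            rintro rfl
            exact ha he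
        _ = L.card * M := by rw [Finset.sum_const, nsmul_eq_mul]
    have h3 : ((A a ∪ L.biUnion A).card : ℝ) + ((A a ∩ L.biUnion A).card : ℝ) =
        (A a).card + (L.biUnion A).card := by exact_mod_cast h1
    have h4 : 0 ≤ (L.card : ℝ) * M := by positivity
    push_cast
    nlinarith [ih, h2, h3, h4, hM0]

theorem NN_pos (n : ℕ) : 0 < NN n := by
  unfold NN
  exact_mod_cast Fintype.card_pos

theorem inter_le (hTR : S_TR) (n : ℕ) (hn : 5 ≤ n) (e e' : Fin n × Fin n) (h : e ≠ e') :
    ((T e.1 e.2 ∩ T e'.1 e'.2).card : ℝ) ≤ NN n / (n * ((n : ℝ) - 1)) := by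
  have hn1 : (5:ℝ) ≤ n := by exact_mod_cast hn
  have hpos : 0 < (n:ℝ) * ((n:ℝ) - 1) := by nlinarith
  by_cases h1 : e.1 = e'.1
  · have h2 : e.2 ≠ e'.2 := fun h3 => h (Prod.ext h1 h3)
    have h3 : T e.1 e.2 ∩ T e'.1 e'.2 = ∅ := by
      rw [Finset.eq_empty_iff_forall_notMem]
      intro x hx
      rw [Finset.mem_inter, T, T, Finset.mem_filter, Finset.mem_filter] at hx
      apply h2
      rw [← hx.1.2, ← hx.2.2, h1]
    rw [h3, Finset.card_empty, Nat.cast_zero]
    exact div_nonneg (NN_pos n).le hpos.le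
  · by_cases h2 : e.2 = e'.2
    · have h3 : T e.1 e.2 ∩ T e'.1 e'.2 = ∅ := by
        rw [Finset.eq_empty_iff_forall_notMem]
        intro x hx
        rw [Finset.mem_inter, T, T, Finset.mem_filter, Finset.mem_filter] at hx
        apply h1
        apply (x : Equiv.Perm (Fin n)).injective
        rw [hx.1.2, hx.2.2, h2]
      rw [h3, Finset.card_empty, Nat.cast_zero]
      exact div_nonneg (NN_pos n).le hpos.le
    · have h3 := (hTR n hn).2.1 e.1 e.2 e'.1 e'.2 h1 h2
      rw [le_div_iff₀ hpos]
      have h4 : ((n * (n - 1) * (T e.1 e.2 ∩ T e'.1 e'.2).card : ℕ) : ℝ) = NN n := by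
        unfold NN
        exact_mod_cast h3
      rw [← h4]
      have h5 : ((n - 1 : ℕ) : ℝ) = (n:ℝ) - 1 := by
        rw [Nat.cast_sub (by omega)]; simp
      push_cast
      rw [h5]
      linarith

theorem t_HYP (hTR : S_TR) (hDC : S_DC) (hLB : S_LB) : S_HYP := by
  refine ⟨180, by norm_num, fun n hn D S hB => ?_⟩
  have hn5 : 5 ≤ n := by omega
  have hnr : (100:ℝ) ≤ n := by exact_mod_cast hn
  have hn0 : (0:ℝ) < n := by linarith
  have hn1 : (0:ℝ) < (n:ℝ) - 1 := by linarith
  have hN := NN_pos n
  obtain ⟨-, hL2, hL3⟩ := hLB n hn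
  have hL3 := hL3 D S hB
  have hDer : (0:ℝ) < (Der n).card := by nlinarith
  have hT : ∀ i j : Fin n, (n:ℝ) * (T i j).card = NN n := by
    intro i j
    have := (hTR n hn5).1 i j
    unfold NN
    exact_mod_cast this
  have hM0 : 0 ≤ NN n / (n * ((n : ℝ) - 1)) := by positivity
  refine ⟨fun i j => ⟨?_, ?_⟩, fun L => ?_, fun i k => ⟨?_, ?_, ?_, ?_⟩, fun I => ?_, fun i => ?_, ?_⟩
  · unfold aa
    positivity
  · unfold aa
    rw [div_le_one hN, ← hT i j]
    have h1 : (S.filter fun x : G n => (x : Equiv.Perm (Fin n)) i = j).card ≤ (T i j).card := by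
      apply Finset.card_le_card
      intro x hx
      rw [Finset.mem_filter] at hx
      exact Finset.mem_filter.2 ⟨Finset.mem_univ _, hx.2⟩
    have h2 : ((S.filter fun x : G n => (x : Equiv.Perm (Fin n)) i = j).card : ℝ) ≤ (T i j).card := by
      exact_mod_cast h1
    gcongr
  · -- (2)
    have h1 := bonf (fun e : Fin n × Fin n => S.filter fun x : G n => (x : Equiv.Perm (Fin n)) e.1 = e.2)
      (NN n / (n * ((n : ℝ) - 1))) hM0 (fun e e' hee => by
        refine le_trans ?_ (inter_le hTR n hn5 e e' hee)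
        have : (S.filter fun x : G n => (x : Equiv.Perm (Fin n)) e.1 = e.2) ∩
            (S.filter fun x : G n => (x : Equiv.Perm (Fin n)) e'.1 = e'.2) ⊆ T e.1 e.2 ∩ T e'.1 e'.2 := by
          intro x hx
          rw [Finset.mem_inter, Finset.mem_filter, Finset.mem_filter] at hx
          rw [Finset.mem_inter, T, T, Finset.mem_filter, Finset.mem_filter]
          exact ⟨⟨Finset.mem_univ _, hx.1.2⟩, ⟨Finset.mem_univ _, hx.2.2⟩⟩
        exact_mod_cast Finset.card_le_card this) L
    have h2 : ((L.biUnion fun e : Fin n × Fin n => S.filter fun x : G n =>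
        (x : Equiv.Perm (Fin n)) e.1 = e.2).card : ℝ) ≤ S.card := by
      have : (L.biUnion fun e : Fin n × Fin n => S.filter fun x : G n =>
        (x : Equiv.Perm (Fin n)) e.1 = e.2) ⊆ S := by
        rw [Finset.biUnion_subset]
        intro e _
        exact Finset.filter_subset _ _
      exact_mod_cast Finset.card_le_card this
    have h3 : ∑ e ∈ L, aa S e.1 e.2 = (n:ℝ) / NN n * ∑ e ∈ L,
        ((S.filter fun x : G n => (x : Equiv.Perm (Fin n)) e.1 = e.2).card : ℝ) := by
      rw [Finset.mul_sum]
      refine Finset.sum_congr rfl fun e _ => ?_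
      unfold aa
      ring
    rw [h3]
    calc (n:ℝ) / NN n * ∑ e ∈ L, ((S.filter fun x : G n => (x : Equiv.Perm (Fin n)) e.1 = e.2).card : ℝ)
        ≤ (n:ℝ) / NN n * (S.card + (L.card : ℝ) ^ 2 * (NN n / (n * ((n : ℝ) - 1)))) := by
          gcongr
          linarith
      _ = cc S + (L.card : ℝ) ^ 2 / ((n : ℝ) - 1) := by
          unfold cc
          field_simp
  · unfold mm
    positivity
  · unfold mm
    by_cases hik : i = k
    · subst hik
      have h0 : (D.filter fun d : G n => (d : Equiv.Perm (Fin n)) i = i) = ∅ := by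
        rw [Finset.filter_eq_empty_iff]
        intro d hd
        have := hB.der d hd
        rw [Der, Finset.mem_filter] at this
        exact this.2 i
      rw [h0]
      simp
    · rw [div_le_one hDer]
      have h1 : (D.filter fun d : G n => (d : Equiv.Perm (Fin n)) i = k).card ≤ (DD i k).card := by
        apply Finset.card_le_card
        intro d hd
        rw [Finset.mem_filter] at hd
        exact Finset.mem_filter.2 ⟨hB.der d hd.1, hd.2⟩
      have h2 : ((D.filter fun d : G n => (d : Equiv.Perm (Fin n)) i = k).card : ℝ) ≤ (DD i k).card := by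
        exact_mod_cast h1
      have h3 := hDC n hn5 i k hik
      have h4 : ((n:ℝ) - 1) * (DD i k).card = (Der n).card := by
        have h5 : ((n - 1 : ℕ) : ℝ) = (n:ℝ) - 1 := by
          rw [Nat.cast_sub (by omega)]; simp
        rw [← h5]
        exact_mod_cast h3
      rw [← h4]
      gcongr
  · unfold mm
    have h0 : (D.filter fun d : G n => (d : Equiv.Perm (Fin n)) i = i) = ∅ := by
      rw [Finset.filter_eq_empty_iff]
      intro d hd
      have := hB.der d hd
      rw [Der, Finset.mem_filter] at this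
      exact this.2 i
    rw [h0]
    simp
  · unfold mm
    have h0 : (D.filter fun d : G n => (d : Equiv.Perm (Fin n)) i = k).card =
        (D.filter fun d : G n => (d : Equiv.Perm (Fin n)) k = i).card := by
      refine Finset.card_bij' (fun d _ => d⁻¹) (fun d _ => d⁻¹) ?_ ?_ ?_ ?_
      · intro d hd
        rw [Finset.mem_filter] at hd ⊢
        refine ⟨hB.inv d hd.1, ?_⟩
        rw [← hd.2]
        simp
      · intro d hd
        rw [Finset.mem_filter] at hd ⊢
        refine ⟨hB.inv d hd.1, ?_⟩
        rw [← hd.2]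
        simp
      · intro d _
        simp
      · intro d _
        simp
    rw [h0]
  · -- (4)
    have h1 := bonf (fun e : Fin n × Fin n => D.filter fun x : G n => (x : Equiv.Perm (Fin n)) e.1 = e.2)
      (NN n / (n * ((n : ℝ) - 1))) hM0 (fun e e' hee => by
        refine le_trans ?_ (inter_le hTR n hn5 e e' hee)
        have : (D.filter fun x : G n => (x : Equiv.Perm (Fin n)) e.1 = e.2) ∩
            (D.filter fun x : G n => (x : Equiv.Perm (Fin n)) e'.1 = e'.2) ⊆ T e.1 e.2 ∩ T e'.1 e'.2 := by
          intro x hx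
          rw [Finset.mem_inter, Finset.mem_filter, Finset.mem_filter] at hx
          rw [Finset.mem_inter, T, T, Finset.mem_filter, Finset.mem_filter]
          exact ⟨⟨Finset.mem_univ _, hx.1.2⟩, ⟨Finset.mem_univ _, hx.2.2⟩⟩
        exact_mod_cast Finset.card_le_card this) (I ×ˢ I)
    have h2 : (((I ×ˢ I).biUnion fun e : Fin n × Fin n => D.filter fun x : G n =>
        (x : Equiv.Perm (Fin n)) e.1 = e.2).card : ℝ) ≤ D.card := by
      have : ((I ×ˢ I).biUnion fun e : Fin n × Fin n => D.filter fun x : G n =>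
        (x : Equiv.Perm (Fin n)) e.1 = e.2) ⊆ D := by
        rw [Finset.biUnion_subset]
        intro e _
        exact Finset.filter_subset _ _
      exact_mod_cast Finset.card_le_card this
    rw [Finset.card_product] at h1
    rw [Finset.sum_product] at h1
    have h3 : ∑ i ∈ I, ∑ k ∈ I, mm D i k = ((n:ℝ) - 1) / (Der n).card * ∑ i ∈ I, ∑ k ∈ I,
        ((D.filter fun x : G n => (x : Equiv.Perm (Fin n)) i = k).card : ℝ) := by
      rw [Finset.mul_sum]
      refine Finset.sum_congr rfl fun i _ => ?_
      rw [Finset.mul_sum]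
      refine Finset.sum_congr rfl fun k _ => ?_
      unfold mm
      ring
    rw [h3]
    have h4 : ((n:ℝ) - 1) / (Der n).card * D.card ≤ 2 := by
      rw [div_mul_eq_mul_div, div_le_iff₀ hDer]
      linarith
    have h5 : NN n / (Der n).card ≤ 180 := by
      rw [div_le_iff₀ hDer]
      linarith
    calc ((n:ℝ) - 1) / (Der n).card * ∑ i ∈ I, ∑ k ∈ I,
        ((D.filter fun x : G n => (x : Equiv.Perm (Fin n)) i = k).card : ℝ)
        ≤ ((n:ℝ) - 1) / (Der n).card * (D.card + ((I.card * I.card : ℕ) : ℝ) ^ 2 *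
          (NN n / (n * ((n : ℝ) - 1)))) := by
          gcongr
          linarith
      _ = ((n:ℝ) - 1) / (Der n).card * D.card + (NN n / (Der n).card) * (I.card : ℝ) ^ 4 / n := by
          push_cast
          field_simp
      _ ≤ 2 + 180 * (I.card : ℝ) ^ 4 / n := by gcongr
  · -- (5)
    have h1 : ∑ k, ((D.filter fun x : G n => (x : Equiv.Perm (Fin n)) i = k).card : ℝ) = D.card := by
      have := Finset.card_eq_sum_card_fiberwise (f := fun x : G n => (x : Equiv.Perm (Fin n)) i)
        (s := D) (t := Finset.univ) (fun _ _ => Finset.mem_coe.2 (Finset.mem_univ _))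
      exact_mod_cast this.symm
    have h3 : ∑ k, mm D i k = ((n:ℝ) - 1) / (Der n).card * ∑ k,
        ((D.filter fun x : G n => (x : Equiv.Perm (Fin n)) i = k).card : ℝ) := by
      rw [Finset.mul_sum]
      refine Finset.sum_congr rfl fun k _ => ?_
      unfold mm
      ring
    rw [h3, h1, div_mul_eq_mul_div, div_le_iff₀ hDer]
    linarith
  · -- (6)
    unfold cc
    rw [lt_div_iff₀ hN, one_mul]
    have := hB.big
    unfold NN
    exact_mod_cast this

end Pool.Agent.V5helper3.ER
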